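import Pool.Agent.Y874.SS.Main
import Pool.Agent.TH778.SA.Defs

/-!
# Strongly surjective Aronszajn lines: `2 ^ |L|` isomorphism types
-/

set_option autoImplicit false

namespace Pool.Agent.Y874.SS

open Cardinal Set Pool.Agent.W684.FM

theorem exists_strictMono {K : Type} [LinearOrder K] (g : Om1 → K) (hg : Monotone g)
    (hf : ∀ y, {a | g a = y}.Countable) : ∃ f : Om1 → K, StrictMono f := by
  classical
  set T : Set Om1 := {a | ∀ b < a, g b < g a} with hT
  have hu : ℵ₀ < #Om1 := by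
    rw [Cardinal.mk_toType, Cardinal.card_ord]
    exact Cardinal.aleph0_lt_aleph_one
  have h0 : ¬ T.Countable := by
    intro hc
    have h1 : (univ : Set Om1) ⊆ ⋃ t ∈ T, {a | g a = g t} := by
      intro a _
      obtain ⟨m, hm, hmin⟩ := WellFounded.has_min (wellFounded_lt (α := Om1)) {b | g b = g a}
        ⟨a, rfl⟩
      have hmT : m ∈ T := by
        intro b hb
        exact lt_of_le_of_ne (hg hb.le) fun h => hmin b (h.trans hm) hb
      exact mem_biUnion hmT hm.symm
    have h2 : (univ : Set Om1).Countable := (hc.biUnion fun t _ => hf (g t)).mono h1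
    have h3 : Countable Om1 := countable_univ_iff.1 h2
    exact absurd (Cardinal.mk_le_aleph0 (α := Om1)) (not_le.2 hu)
  have h1 : ℵ₀ < #T := by
    rw [← not_le, Cardinal.le_aleph0_iff_set_countable]
    exact h0
  have h2 : (ℵ₁ : Cardinal.{0}).ord ≤ Ordinal.type (α := T) (· < ·) := by
    rw [Cardinal.ord_le, Ordinal.card_type, ← Cardinal.succ_aleph0, Order.succ_le_iff]
    exact h1
  have h3 : Ordinal.type (α := Om1) (· < ·) ≤ Ordinal.type (α := T) (· < ·) :=
    (Ordinal.type_toType _).le.trans h2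
  obtain ⟨e⟩ := Ordinal.type_le_iff'.1 h3
  refine ⟨fun a => g (e a), fun a b hab => ?_⟩
  exact (e b).2 _ (e.map_rel_iff.2 hab)

variable {L : Type} [LinearOrder L]

theorem X_mono' {A : L → Set ℕ} {w w' : MA A} (h : w ≤ w') : X w ≤ X w' := by
  rcases h.lt_or_eq with h | rfl
  · rw [lt_iff'] at h
    rcases h with h | ⟨h, _⟩
    · exact h.le
    · exact h.le
  · exact le_rfl

omit [LinearOrder L] in
theorem fibre_countable (A : L → Set ℕ) (x : L) : {w : MA A | X w = x}.Countable := by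
  have : Countable (ℚ ×ₗ ℕ) := inferInstanceAs (Countable (ℚ × ℕ))
  refine Set.countable_of_injective_of_countable_image (f := fun w : MA A => (ofLex w.1).2) ?_
    (Set.to_countable _)
  intro w hw w' hw' h
  apply Subtype.ext
  apply ofLex.injective
  exact Prod.ext (hw.trans hw'.symm) h

theorem aronszajn_MA (hL : Pool.Agent.TH778.SA.IsAronszajn L) (A : L → Set ℕ) :
    Pool.Agent.TH778.SA.IsAronszajn (MA A) := by
  obtain ⟨h1, h2, h3, h4⟩ := hL
  refine ⟨(emb A).injective.uncountable, ?_, ?_, ?_⟩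
  · rintro ⟨f, hf⟩
    refine h2 (exists_strictMono (fun a => X (f a)) (fun a b hab => X_mono' (hf.monotone hab))
      fun y => ?_)
    exact (fibre_countable A y).preimage hf.injective
  · rintro ⟨f, hf⟩
    obtain ⟨k, hk⟩ := exists_strictMono (K := Lᵒᵈ) (fun a => OrderDual.toDual (X (f a)))
      (fun a b hab => show X (f b) ≤ X (f a) from X_mono' (hf.antitone hab))
      (fun y => (fibre_countable A (OrderDual.ofDual y)).preimage hf.injective)
    exact h3 ⟨fun a => OrderDual.ofDual (k a), fun a b hab => hk hab⟩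
  · rintro S ⟨h, hh⟩
    have hs : ∀ y : (X '' S : Set L), ∃ w : S, X w.1 = y.1 := by
      rintro ⟨_, w, hw, rfl⟩
      exact ⟨⟨w, hw⟩, rfl⟩
    choose s hs using hs
    have hY : (X '' S : Set L).Countable := by
      refine h4 _ ⟨fun y => h (s y), fun y y' hy => hh ?_⟩
      show (s y).1 < (s y').1
      rw [lt_iff', hs y, hs y']
      exact Or.inl hy
    refine (hY.biUnion fun y _ => fibre_countable A y).mono ?_
    intro w hw
    exact mem_biUnion (mem_image_of_mem X hw) rfl

theorem main_aron (L : Type) [LinearOrder L] (hA : Pool.Agent.TH778.SA.IsAronszajn L)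
    (hL : StronglySurjective L) :
    ∃ (M : Set L → Type) (_ : ∀ S, LinearOrder (M S)),
      (∀ S, Pool.Agent.TH778.SA.IsAronszajn (M S) ∧ StronglySurjective (M S) ∧
        Cardinal.mk (M S) = Cardinal.mk L ∧ Nonempty (L ↪o M S)) ∧
      (∀ S T, MapsOnto (M S) (M T) ∧ Nonempty (M S ↪o M T)) ∧
      ∀ S T, Nonempty (M S ≃o M T) → S = T := by
  have : Uncountable L := hA.1
  obtain ⟨c, hc⟩ := exists_code hL
  obtain ⟨x0⟩ : Nonempty L := inferInstance
  refine ⟨fun S => MA (code c S), fun S => inferInstance, fun S => ?_, fun S T => ⟨?_, ?_⟩, ?_⟩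
  · exact ⟨aronszajn_MA hA _, MA_strong hL _, card_MA _, ⟨emb _⟩⟩
  · exact mapsOnto_of_onto (MA_onto hL (code c S) (MA (code c T)) ⟨_, (lo (code c T) x0).2⟩)
  · exact emb_MA _ _
  · rintro S T ⟨φ⟩
    exact Subset.antisymm (sub_of_iso hc φ) (sub_of_iso hc φ.symm)

/-- The left factor embeds into the product. -/
theorem emb_left (R A : Type) [LinearOrder R] [LinearOrder A] [Nonempty A] :
    Nonempty (R ↪o R ×ₗ A) := by
  obtain ⟨a⟩ : Nonempty A := inferInstance
  refine ⟨OrderEmbedding.ofStrictMono (fun r => toLex (r, a)) fun r r' h => ?_⟩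
  rw [Prod.Lex.toLex_lt_toLex]
  exact Or.inl h

/-- The right factor embeds into the product. -/
theorem emb_right (R A : Type) [LinearOrder R] [LinearOrder A] [Nonempty R] :
    Nonempty (A ↪o R ×ₗ A) := by
  obtain ⟨r⟩ : Nonempty R := inferInstance
  refine ⟨OrderEmbedding.ofStrictMono (fun a => toLex (r, a)) fun a a' h => ?_⟩
  rw [Prod.Lex.toLex_lt_toLex]
  exact Or.inr ⟨rfl, h⟩

theorem main_both (R A : Type) [LinearOrder R] [LinearOrder A] [Uncountable R] [Nonempty A]
    (hR : StronglySurjective R) (hA : StronglySurjective A) :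
    ∃ (M : Set (R × A) → Type) (_ : ∀ S, LinearOrder (M S)),
      (∀ S, StronglySurjective (M S) ∧ Cardinal.mk (M S) = Cardinal.mk (R × A) ∧
        Nonempty (R ↪o M S) ∧ Nonempty (A ↪o M S)) ∧
      (∀ S T, MapsOnto (M S) (M T) ∧ Nonempty (M S ↪o M T)) ∧
      ∀ S T, Nonempty (M S ≃o M T) → S = T := by
  obtain ⟨e1⟩ := emb_left R A
  obtain ⟨e2⟩ := emb_right R A
  have : Uncountable (R ×ₗ A) := e1.injective.uncountable
  obtain ⟨M, i, h1, h2, h3⟩ := main (R ×ₗ A) (hR.prod hA)
  refine ⟨fun S => M (ofLex ⁻¹' S), fun S => i _, fun S => ?_, fun S T => h2 _ _, fun S T h => ?_⟩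
  · obtain ⟨g1, g2, ⟨g3⟩, -⟩ := h1 (ofLex ⁻¹' S)
    exact ⟨g1, g2.trans (Cardinal.mk_congr ofLex), ⟨e1.trans g3⟩, ⟨e2.trans g3⟩⟩
  · exact (Set.preimage_injective.2 (ofLex (α := R × A)).surjective) (h3 _ _ h)

end Pool.Agent.Y874.SS
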