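import Mathlib

/-!
# Strongly surjective linear orders
-/

set_option autoImplicit false

namespace Pool.Agent.Y874.SS

open Cardinal Set

universe u

/-- There is a surjection from `L` to `K` which is order preserving in the weak sense. -/
def MapsOnto (L : Type u) (K : Type u) [LinearOrder L] [LinearOrder K] : Prop :=
  ∃ f : L → K, Monotone f ∧ Function.Surjective f

/-- `L` is strongly surjective: it maps onto each of its (nonempty) suborders. -/
def StronglySurjective (L : Type u) [LinearOrder L] : Prop :=
  ∀ K : Set L, K.Nonempty → MapsOnto L K

end Pool.Agent.Y874.SS
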