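import Pool.Agent.Y874.SS.Sum

/-!
# Lexicographic products and sums over strongly surjective linear orders

The lemmas `countable_cofinal`, `dual`, `countable_coinitial` and `rat_onto` are those of the
starting file `Pool/Agent/Results/MP_af603d_lc/DenseNonCCC.lean`.
-/

set_option autoImplicit false

namespace Pool.Agent.Y874.SS

open Cardinal Set

universe u v w

section Short

variable {L : Type u} [LinearOrder L]

/-- Every subset of a strongly surjective linear order has a countable cofinal subset. -/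
theorem countable_cofinal (hL : StronglySurjective L) (F : Set L) :
    ∃ C : Set L, C ⊆ F ∧ C.Countable ∧ ∀ x ∈ F, ∃ c ∈ C, x ≤ c := by
  by_contra hcon
  push Not at hcon
  have hFne : F.Nonempty := by
    obtain ⟨x, hx, _⟩ := hcon ∅ (empty_subset _) countable_empty
    exact ⟨x, hx⟩
  have hL1 : ¬ ∃ C : Set L, C.Countable ∧ ∀ x, ∃ c ∈ C, x ≤ c := by
    rintro ⟨C, hC, hC'⟩
    obtain ⟨f, hf, hfs⟩ := hL F hFne
    obtain ⟨x, hx, hx'⟩ := hcon ((fun c => (f c : L)) '' C)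
      (by rintro _ ⟨c, _, rfl⟩; exact (f c).2) (hC.image _)
    obtain ⟨y, hy⟩ := hfs ⟨x, hx⟩
    obtain ⟨c, hc, hyc⟩ := hC' y
    have h1 := hf hyc
    rw [hy] at h1
    exact absurd (hx' _ ⟨c, hc, rfl⟩) (not_lt.2 h1)
  have hnext : ∀ x : F, ∃ y : F, x < y := by
    intro x
    obtain ⟨y, hy, hy'⟩ := hcon {x.1} (by rintro _ rfl; exact x.2) (countable_singleton _)
    exact ⟨⟨y, hy⟩, hy' x.1 rfl⟩
  choose nx hnx using hnext
  let s : ℕ → F := fun n => nx^[n] ⟨hFne.some, hFne.some_mem⟩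
  have hs : StrictMono s := by
    refine strictMono_nat_of_lt_succ fun n => ?_
    show nx^[n] _ < nx^[n+1] _
    rw [Function.iterate_succ_apply']
    exact hnx _
  obtain ⟨f, hf, hfs⟩ := hL (range fun n => (s n : L)) ⟨_, 0, rfl⟩
  choose l hl using fun n : ℕ => hfs ⟨(s n : L), n, rfl⟩
  apply hL1
  refine ⟨range l, countable_range l, fun x => ?_⟩
  obtain ⟨m, hm⟩ := (f x).2
  refine ⟨l (m + 1), ⟨m + 1, rfl⟩, ?_⟩
  by_contra hlt
  have h1 := hf (not_le.1 hlt).le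
  rw [hl (m + 1)] at h1
  have h2 : (s (m + 1) : L) ≤ (f x : L) := h1
  rw [← hm] at h2
  exact absurd (hs (Nat.lt_succ_self m)) (not_lt.2 h2)

/-- Strong surjectivity passes to the reverse order. -/
theorem StronglySurjective.dual (hL : StronglySurjective L) : StronglySurjective Lᵒᵈ := by
  intro K hK
  obtain ⟨f, hf, hfs⟩ := hL (OrderDual.toDual ⁻¹' K) hK
  refine ⟨fun x => ⟨OrderDual.toDual (f (OrderDual.ofDual x)).1, (f (OrderDual.ofDual x)).2⟩,
    ?_, ?_⟩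
  · intro x y hxy
    have h1 : OrderDual.ofDual y ≤ OrderDual.ofDual x := hxy
    exact hf h1
  · rintro ⟨y, hy⟩
    obtain ⟨x, hx⟩ := hfs ⟨OrderDual.ofDual y, hy⟩
    refine ⟨OrderDual.toDual x, ?_⟩
    apply Subtype.ext
    show OrderDual.toDual (f x).1 = y
    rw [hx]
    rfl

theorem countable_coinitial (hL : StronglySurjective L) (F : Set L) :
    ∃ C : Set L, C ⊆ F ∧ C.Countable ∧ ∀ x ∈ F, ∃ c ∈ C, c ≤ x := by
  obtain ⟨C, h1, h2, h3⟩ := countable_cofinal hL.dual (OrderDual.ofDual ⁻¹' F)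
  exact ⟨OrderDual.toDual ⁻¹' C, h1, h2, h3⟩

theorem cof_of {F C : Set L} (hF : F.Nonempty) (h1 : C ⊆ F) (h2 : C.Countable)
    (h3 : ∀ x ∈ F, ∃ c ∈ C, x ≤ c) : Cof F := by
  have hC : C.Nonempty := by
    obtain ⟨x, hx⟩ := hF
    obtain ⟨c, hc, _⟩ := h3 x hx
    exact ⟨c, hc⟩
  obtain ⟨c, rfl⟩ := h2.exists_eq_range hC
  refine ⟨c, fun n => h1 ⟨n, rfl⟩, fun x hx => ?_⟩
  obtain ⟨_, ⟨n, rfl⟩, h⟩ := h3 x hx
  exact ⟨n, h⟩

theorem coi_of {F C : Set L} (hF : F.Nonempty) (h1 : C ⊆ F) (h2 : C.Countable)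
    (h3 : ∀ x ∈ F, ∃ c ∈ C, c ≤ x) : Coi F := by
  have hC : C.Nonempty := by
    obtain ⟨x, hx⟩ := hF
    obtain ⟨c, hc, _⟩ := h3 x hx
    exact ⟨c, hc⟩
  obtain ⟨c, rfl⟩ := h2.exists_eq_range hC
  refine ⟨c, fun n => h1 ⟨n, rfl⟩, fun x hx => ?_⟩
  obtain ⟨_, ⟨n, rfl⟩, h⟩ := h3 x hx
  exact ⟨n, h⟩

/-- Every nonempty subset has cofinal and coinitial sequences. -/
def ShortO (C : Type u) [LinearOrder C] : Prop := ∀ Y : Set C, Y.Nonempty → Cof Y ∧ Coi Y

theorem StronglySurjective.short (hL : StronglySurjective L) : ShortO L := by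
  intro Y hY
  obtain ⟨C, h1, h2, h3⟩ := countable_cofinal hL Y
  obtain ⟨D, k1, k2, k3⟩ := countable_coinitial hL Y
  exact ⟨cof_of hY h1 h2 h3, coi_of hY k1 k2 k3⟩

theorem short_of_countable (C : Type u) [LinearOrder C] [Countable C] : ShortO C := by
  intro Y hY
  exact ⟨cof_of hY subset_rfl (Set.to_countable Y) fun x hx => ⟨x, hx, le_rfl⟩,
    coi_of hY subset_rfl (Set.to_countable Y) fun x hx => ⟨x, hx, le_rfl⟩⟩

end Short

section Lex

variable {L : Type u} {C : Type v} {C' : Type w} [LinearOrder L] [LinearOrder C] [LinearOrder C']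

/-- The sum of the suborders `E x` of `C`, as a suborder of the lexicographic product. -/
def Sm (E : L → Set C) : Set (L ×ₗ C) := {w | (ofLex w).2 ∈ E (ofLex w).1}

theorem lexSurj (hL : StronglySurjective L) (E : L → Set C)
    (K : Set (L ×ₗ C')) (hK : K.Nonempty)
    (hC' : ∀ y, {c : C' | (toLex (y, c) : L ×ₗ C') ∈ K}.Nonempty →
      Cof {c : C' | (toLex (y, c) : L ×ₗ C') ∈ K} ∧ Coi {c : C' | (toLex (y, c) : L ×ₗ C') ∈ K})
    (H : ∀ x y, ∀ S ⊆ {c : C' | (toLex (y, c) : L ×ₗ C') ∈ K}, S.Nonempty → Onto (E x) S) :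
    Onto (Sm E) K := by
  classical
  obtain ⟨g, hg, hgs⟩ := hL {x | ∃ c : C', toLex (x, c) ∈ K} (by
    obtain ⟨w, hw⟩ := hK
    exact ⟨(ofLex w).1, (ofLex w).2, hw⟩)
  have key : ∀ y : {x | ∃ c : C', toLex (x, c) ∈ K}, ∃ f : L → C → C',
      Good {x | g x = y} E {c : C' | (toLex (y.1, c) : L ×ₗ C') ∈ K} f := by
    intro y
    have h1 := hL.short {x | g x = y} (hgs y)
    have h2 := hC' y.1 y.2
    exact fib h1.1 h1.2 h2.1 h2.2 fun x _ S hS hSn => H x y.1 S hS hSn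
  choose f hf using key
  refine ⟨fun w => toLex ((g (ofLex w).1).1, f (g (ofLex w).1) (ofLex w).1 (ofLex w).2), ?_, ?_⟩
  · intro w hw w' hw' hle
    obtain ⟨x, c, rfl⟩ : ∃ x c, w = toLex (x, c) := ⟨(ofLex w).1, (ofLex w).2, rfl⟩
    obtain ⟨x', c', rfl⟩ : ∃ x c, w' = toLex (x, c) := ⟨(ofLex w').1, (ofLex w').2, rfl⟩
    have hc : c ∈ E x := hw
    have hc' : c' ∈ E x' := hw'
    simp only [ofLex_toLex]
    rw [Prod.Lex.le_iff]
    simp only [ofLex_toLex]
    have hle2 := Prod.Lex.le_iff.1 hle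
    simp only [ofLex_toLex] at hle2
    have h1 : x ≤ x' := by
      rcases hle2 with h | ⟨h, _⟩
      · exact h.le
      · exact h.le
    have h2 := hg h1
    rcases h2.lt_or_eq with h2 | h2
    · exact Or.inl h2
    · refine Or.inr ⟨congrArg Subtype.val h2, ?_⟩
      rw [← h2]
      rcases hle2 with h | ⟨h, h'⟩
      · exact (hf (g x)).2.1 x rfl x' h2.symm h c hc c' hc'
      · subst h
        exact (hf (g x)).1 x rfl hc hc' h'
  · ext w
    obtain ⟨y, c, rfl⟩ : ∃ x c, w = toLex (x, c) := ⟨(ofLex w).1, (ofLex w).2, rfl⟩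
    constructor
    · rintro ⟨w', hw', he⟩
      rw [← he]
      exact (hf (g (ofLex w').1)).2.2.1 (ofLex w').1 rfl (ofLex w').2 hw'
    · intro hw
      obtain ⟨x, hx, a, ha, hxa⟩ := (hf ⟨y, c, hw⟩).2.2.2 c hw
      refine ⟨toLex (x, a), ha, ?_⟩
      simp only [ofLex_toLex]
      have hx' : g x = ⟨y, c, hw⟩ := hx
      rw [hx', hxa]

theorem mapsOnto_of_onto {α β : Type u} [LinearOrder α] [LinearOrder β] {A : Set α} {B : Set β}
    (h : Onto A B) : MapsOnto A B := by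
  obtain ⟨g, hg, hgi⟩ := h
  refine ⟨fun a => ⟨g a.1, hgi ▸ mem_image_of_mem g a.2⟩, fun a b hab => hg a.2 b.2 hab, ?_⟩
  rintro ⟨b, hb⟩
  rw [← hgi] at hb
  obtain ⟨a, ha, hab⟩ := hb
  exact ⟨⟨a, ha⟩, Subtype.ext hab⟩

theorem onto_trans {α β γ : Type*} [LinearOrder α] [LinearOrder β] [LinearOrder γ]
    {A : Set α} {B : Set β} {D : Set γ} (h : Onto A B) (h' : Onto B D) : Onto A D := by
  obtain ⟨g, hg, hgi⟩ := h
  obtain ⟨k, hk, hki⟩ := h'
  refine ⟨k ∘ g, hk.comp hg fun a ha => hgi ▸ mem_image_of_mem g ha, ?_⟩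
  rw [image_comp, hgi, hki]

theorem onto_of_mapsOnto {α : Type u} [LinearOrder α] {B : Set α} (h : MapsOnto α B) :
    Onto (univ : Set α) B := by
  obtain ⟨f, hf, hfs⟩ := h
  refine ⟨fun a => (f a).1, fun a _ b _ hab => hf hab, ?_⟩
  ext b
  constructor
  · rintro ⟨a, _, rfl⟩
    exact (f a).2
  · intro hb
    obtain ⟨a, ha⟩ := hfs ⟨b, hb⟩
    exact ⟨a, mem_univ _, by simp only [ha]⟩

/-- The class of strongly surjective linear orders is closed under lexicographic products. -/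
theorem StronglySurjective.prod {L C : Type u} [LinearOrder L] [LinearOrder C]
    (hL : StronglySurjective L) (hC : StronglySurjective C) : StronglySurjective (L ×ₗ C) := by
  intro K hK
  obtain ⟨g, hg, hgi⟩ := lexSurj hL (fun _ => (Set.univ : Set C)) K hK
    (fun y hy => hC.short _ hy) (fun x y S _ hSn => onto_of_mapsOnto (hC S hSn))
  have hu : Sm (fun _ : L => (Set.univ : Set C)) = Set.univ := by
    ext w; simp [Sm]
  rw [hu] at hg hgi
  refine ⟨fun a => ⟨g a, hgi ▸ mem_image_of_mem g (mem_univ a)⟩,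
    fun a b hab => hg (mem_univ a) (mem_univ b) hab, ?_⟩
  rintro ⟨b, hb⟩
  rw [← hgi] at hb
  obtain ⟨a, _, hab⟩ := hb
  exact ⟨a, Subtype.ext hab⟩

theorem onto_of_mapsOnto_set {α β : Type u} [LinearOrder α] [LinearOrder β] {A : Set α}
    {B : Set β} (hB : B.Nonempty) (h : MapsOnto A B) : Onto A B := by
  classical
  obtain ⟨f, hf, hfs⟩ := h
  refine ⟨fun a => if h : a ∈ A then (f ⟨a, h⟩).1 else hB.some, ?_, ?_⟩
  · intro a ha b hb hab
    simp only [ha, hb, dif_pos]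
    exact hf (show (⟨a, ha⟩ : A) ≤ ⟨b, hb⟩ from hab)
  · ext b
    constructor
    · rintro ⟨a, ha, rfl⟩
      simp only [ha, dif_pos]
      exact (f ⟨a, ha⟩).2
    · intro hb
      obtain ⟨a, ha⟩ := hfs ⟨b, hb⟩
      refine ⟨a.1, a.2, ?_⟩
      simp only [a.2, dif_pos, Subtype.coe_eta, ha]

theorem strong_of_onto {α : Type u} [LinearOrder α] {T : Set α}
    (h : ∀ K' ⊆ T, K'.Nonempty → Onto T K') : StronglySurjective T := by
  intro K hK
  obtain ⟨g, hg, hgi⟩ := h (Subtype.val '' K) (by rintro _ ⟨a, _, rfl⟩; exact a.2) (hK.image _)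
  have h1 : ∀ a : T, ∃ b : K, (b : T).1 = g a.1 := by
    intro a
    have : g a.1 ∈ Subtype.val '' K := by rw [← hgi]; exact mem_image_of_mem g a.2
    obtain ⟨b, hb, hb'⟩ := this
    exact ⟨⟨b, hb⟩, hb'⟩
  choose f hf using h1
  refine ⟨f, ?_, ?_⟩
  · intro a b hab
    have h2 : g a.1 ≤ g b.1 := hg a.2 b.2 hab
    rw [← hf a, ← hf b] at h2
    exact h2
  · rintro ⟨b, hb⟩
    have : b.1 ∈ g '' T := by rw [hgi]; exact ⟨b, hb, rfl⟩
    obtain ⟨a, ha, hab⟩ := this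
    refine ⟨⟨a, ha⟩, ?_⟩
    apply Subtype.ext
    apply Subtype.ext
    rw [hf]
    exact hab

/-- Lexicographic sums over a strongly surjective linear order. -/
theorem StronglySurjective.sum {L C : Type u} [LinearOrder L] [LinearOrder C]
    (hL : StronglySurjective L) (E : L → Set C)
    (H : ∀ x y, ∀ S ⊆ E y, S.Nonempty → MapsOnto (E x) S) : StronglySurjective (Sm E) := by
  apply strong_of_onto
  intro K hKE hK
  have hsub : ∀ y, {c : C | (toLex (y, c) : L ×ₗ C) ∈ K} ⊆ E y := fun y c hc => hKE hc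
  have hE : ∀ y, StronglySurjective (E y) := by
    intro y
    apply strong_of_onto
    intro K' hK' hK'n
    exact onto_of_mapsOnto_set hK'n (H y y K' hK' hK'n)
  refine lexSurj hL E K hK ?_ ?_
  · intro y hy
    have h1 := (hE y).short {c : E y | c.1 ∈ {c : C | (toLex (y, c) : L ×ₗ C) ∈ K}} (by
      obtain ⟨c, hc⟩ := hy
      exact ⟨⟨c, hsub y hc⟩, hc⟩)
    obtain ⟨⟨c, hc, hcc⟩, ⟨d, hd, hdd⟩⟩ := h1
    exact ⟨⟨fun n => (c n).1, hc, fun x hx => hcc ⟨x, hsub y hx⟩ hx⟩,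
      ⟨fun n => (d n).1, hd, fun x hx => hdd ⟨x, hsub y hx⟩ hx⟩⟩
  · intro x y S hS hSn
    exact onto_of_mapsOnto_set hSn (H x y S (hS.trans (hsub y)) hSn)

/-- A countable linear order is a monotone image of the rationals. -/
theorem rat_onto (K : Type u) [LinearOrder K] [Countable K] [Nonempty K] :
    ∃ f : ℚ → K, Monotone f ∧ Function.Surjective f := by
  have : Countable (K ×ₗ ℚ) := inferInstanceAs (Countable (K × ℚ))
  have : Nonempty (K ×ₗ ℚ) := inferInstanceAs (Nonempty (K × ℚ))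
  obtain ⟨e⟩ := Order.iso_of_countable_dense (α := ℚ) (β := K ×ₗ ℚ)
  refine ⟨fun q => (ofLex (e q)).1, ?_, fun k => ⟨e.symm (toLex (k, 0)), by simp⟩⟩
  intro q r hqr
  have h1 : e q ≤ e r := e.monotone hqr
  rcases Prod.Lex.le_iff.1 h1 with h | ⟨h, _⟩
  · exact h.le
  · exact h.le

end Lex

end Pool.Agent.Y874.SS
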