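import Pool.Agent.Y874.SS.Types
import Pool.Agent.Y275.SSCard

/-!
# `2 ^ |L|` pairwise non-isomorphic strongly surjective linear orders of size `|L|`
-/

set_option autoImplicit false

namespace Pool.Agent.Y874.SS

open Set

universe u

variable {L : Type u} [LinearOrder L]

/-- The code of the point `x` relative to the set `S`. -/
def code (c : L → Set ℕ) (S : Set L) (x : L) : Set ℕ :=
  {m | (m = 0 ∧ x ∈ S) ∨ ∃ k ∈ c x, m = k + 1}

theorem sub_of_iso {c : L → Set ℕ} (hc : Function.Injective c) {S T : Set L}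
    (φ : MA (code c S) ≃o MA (code c T)) : S ⊆ T := by
  intro x hx
  have h0 : 0 ∈ code c S x := Or.inl ⟨rfl, hx⟩
  obtain ⟨x', hx'⟩ := exists_eq φ h0
  have h1 : c x = c x' := by
    ext k
    have h2 : ∀ (S : Set L) (x : L), k + 1 ∈ code c S x ↔ k ∈ c x := by
      intro S x
      constructor
      · rintro (⟨h, _⟩ | ⟨j, hj, hjk⟩)
        · omega
        · obtain rfl : k = j := by omega
          exact hj
      · intro h
        exact Or.inr ⟨k, h, rfl⟩
    rw [← h2 S x, ← h2 T x', hx']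
  rw [hx'] at h0
  rcases h0 with ⟨_, h⟩ | ⟨j, _, hj⟩
  · rw [hc h1]
    exact h
  · omega

/-- The left end point of the interval of `x`. -/
def lo (A : L → Set ℕ) (x : L) : MA A := mk A x 0 0 (sz_pos _ _)

/-- The right end point of the interval of `x`. -/
def hi (A : L → Set ℕ) (x : L) : MA A := mk A x 1 0 (sz_pos _ _)

theorem ioo_nonempty (A : L → Set ℕ) (x : L) : (Ioo (lo A x) (hi A x)).Nonempty := by
  refine ⟨mk A x (1 / 2) 0 (sz_pos _ _), ?_, ?_⟩
  · rw [lt_iff']
    exact Or.inr ⟨rfl, Or.inl (by show (0 : ℚ) < 1 / 2; norm_num)⟩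
  · rw [lt_iff']
    exact Or.inr ⟨rfl, Or.inl (by show (1 / 2 : ℚ) < 1; norm_num)⟩

theorem ioo_disjoint (A : L → Set ℕ) :
    Pairwise fun x y => Disjoint (Ioo (lo A x) (hi A x)) (Ioo (lo A y) (hi A y)) := by
  intro x y hxy
  rw [Set.disjoint_left]
  rintro w ⟨h1, h2⟩ ⟨h3, h4⟩
  have aux : ∀ z : L, lo A z < w → w < hi A z → X w = z := by
    intro z h5 h6
    rw [lt_iff'] at h5 h6
    apply le_antisymm
    · rcases h6 with h | ⟨h, _⟩
      · exact h.le
      · exact h.le
    · rcases h5 with h | ⟨h, _⟩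
      · exact h.le
      · exact h.le
  exact hxy ((aux x h1 h2).symm.trans (aux y h3 h4))

theorem not_dense [Uncountable L] (A : L → Set ℕ) (D : Set (MA A)) (hD : D.Countable) :
    ¬ @Dense (MA A) (Preorder.topology (MA A)) D := by
  intro hdense
  let : TopologicalSpace (MA A) := Preorder.topology _
  have : OrderTopology (MA A) := ⟨rfl⟩
  have hmeet : ∀ x : L, ∃ w ∈ D, w ∈ Ioo (lo A x) (hi A x) := by
    intro x
    obtain ⟨w, hw1, hw2⟩ := hdense.inter_open_nonempty _ isOpen_Ioo (ioo_nonempty A x)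
    exact ⟨w, hw2, hw1⟩
  choose w hwD hw using hmeet
  have hinj : Function.Injective fun x => (⟨w x, hwD x⟩ : D) := by
    intro x y hxy
    by_contra hne
    have h1 : w x = w y := congrArg Subtype.val hxy
    exact Set.disjoint_left.1 (ioo_disjoint A hne) (hw x) (h1 ▸ hw y)
  have : Countable D := hD
  exact not_countable (hinj.countable)

/-- `L` embeds into the sum. -/
def emb (A : L → Set ℕ) : L ↪o MA A :=
  OrderEmbedding.ofStrictMono (lo A) fun x y hxy => by
    rw [lt_iff']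
    exact Or.inl hxy

theorem card_MA [Uncountable L] (A : L → Set ℕ) : Cardinal.mk (MA A) = Cardinal.mk L := by
  apply le_antisymm
  · refine (Cardinal.mk_set_le (MA A)).trans ?_
    have h1 : Cardinal.mk (L ×ₗ (ℚ ×ₗ ℕ)) = Cardinal.mk (L × (ℚ × ℕ)) :=
      Cardinal.mk_congr (ofLex.trans (Equiv.prodCongr (Equiv.refl L) ofLex))
    rw [h1, Cardinal.mk_prod, Cardinal.mk_eq_aleph0 (ℚ × ℕ)]
    simp only [Cardinal.lift_uzero, Cardinal.lift_aleph0]
    exact (Cardinal.mul_aleph0_eq (Cardinal.aleph0_le_mk L)).le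
  · exact Cardinal.mk_le_of_injective (emb A).injective

/-- The sums are pairwise embeddable. -/
theorem emb_MA (A B : L → Set ℕ) : Nonempty (MA A ↪o MA B) := by
  have : Countable (ℚ ×ₗ ℕ) := inferInstanceAs (Countable (ℚ × ℕ))
  obtain ⟨e⟩ := Order.embedding_from_countable_to_dense (ℚ ×ₗ ℕ) ℚ
  refine ⟨OrderEmbedding.ofStrictMono
    (fun w => mk B (X w) (e (toLex (Q w, I w))) 0 (sz_pos _ _)) fun w w' hw => ?_⟩
  rw [lt_iff'] at hw ⊢
  simp only [X_mk, Q_mk, I_mk]
  rcases hw with h | ⟨h, h'⟩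
  · exact Or.inl h
  · refine Or.inr ⟨h, Or.inl ?_⟩
    apply e.strictMono
    rw [Prod.Lex.lt_iff]
    exact h'

theorem exists_code (hL : StronglySurjective L) : ∃ c : L → Set ℕ, Function.Injective c := by
  have h1 := Pool.Agent.Y275.SSCard.card_le L (countable_cofinal hL) (countable_coinitial hL)
  have h2 : Cardinal.lift.{0} (Cardinal.mk L) ≤ Cardinal.lift.{u} (Cardinal.mk (Set ℕ)) := by
    rw [Cardinal.mk_set, Cardinal.mk_nat, Cardinal.lift_two_power, Cardinal.lift_aleph0,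
      Cardinal.lift_uzero]
    exact h1
  obtain ⟨c⟩ := Cardinal.lift_mk_le'.1 h2
  exact ⟨c, c.injective⟩

theorem main (L : Type u) [LinearOrder L] [Uncountable L] (hL : StronglySurjective L) :
    ∃ (M : Set L → Type u) (_ : ∀ S, LinearOrder (M S)),
      (∀ S, StronglySurjective (M S) ∧ Cardinal.mk (M S) = Cardinal.mk L ∧
        Nonempty (L ↪o M S) ∧
        (∃ a b : L → M S, (∀ x, (Ioo (a x) (b x)).Nonempty) ∧
          Pairwise fun x y => Disjoint (Ioo (a x) (b x)) (Ioo (a y) (b y))) ∧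
        ∀ D : Set (M S), D.Countable → ¬ @Dense (M S) (Preorder.topology (M S)) D) ∧
      (∀ S T, MapsOnto (M S) (M T) ∧ Nonempty (M S ↪o M T)) ∧
      ∀ S T, Nonempty (M S ≃o M T) → S = T := by
  obtain ⟨c, hc⟩ := exists_code hL
  obtain ⟨x0⟩ : Nonempty L := inferInstance
  refine ⟨fun S => MA (code c S), fun S => inferInstance, fun S => ?_, fun S T => ⟨?_, ?_⟩, ?_⟩
  · exact ⟨MA_strong hL _, card_MA _, ⟨emb _⟩, ⟨lo _, hi _, ioo_nonempty _, ioo_disjoint _⟩,
      not_dense _⟩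
  · exact mapsOnto_of_onto (MA_onto hL (code c S) (MA (code c T)) ⟨_, (lo (code c T) x0).2⟩)
  · exact emb_MA _ _
  · rintro S T ⟨φ⟩
    exact Subset.antisymm (sub_of_iso hc φ) (sub_of_iso hc φ.symm)

end Pool.Agent.Y874.SS
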