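import Pool.Agent.Y874.SS.Defs

/-!
# Lexicographic sums of strongly surjective linear orders
-/

set_option autoImplicit false

namespace Pool.Agent.Y874.SS

open Cardinal Set

universe u v w

/-- The suborder `A` maps onto the suborder `B`. -/
def Onto {α : Type u} {β : Type v} [LinearOrder α] [LinearOrder β] (A : Set α) (B : Set β) :
    Prop :=
  ∃ g : α → β, MonotoneOn g A ∧ g '' A = B

/-- `F` has a cofinal sequence. -/
def Cof {α : Type u} [LinearOrder α] (F : Set α) : Prop :=
  ∃ c : ℕ → α, (∀ n, c n ∈ F) ∧ ∀ x ∈ F, ∃ n, x ≤ c n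

/-- `F` has a coinitial sequence. -/
def Coi {α : Type u} [LinearOrder α] (F : Set α) : Prop :=
  ∃ c : ℕ → α, (∀ n, c n ∈ F) ∧ ∀ x ∈ F, ∃ n, c n ≤ x

/-- `f` is a monotone map of the sum of the `E x`, `x ∈ F`, onto `Y`. -/
def Good {L : Type u} {C : Type v} {C' : Type w} [LinearOrder L] [LinearOrder C] [LinearOrder C']
    (F : Set L) (E : L → Set C) (Y : Set C') (f : L → C → C') : Prop :=
  (∀ x ∈ F, MonotoneOn (f x) (E x)) ∧
  (∀ x ∈ F, ∀ x' ∈ F, x < x' → ∀ c ∈ E x, ∀ c' ∈ E x', f x c ≤ f x' c') ∧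
  (∀ x ∈ F, ∀ c ∈ E x, f x c ∈ Y) ∧
  ∀ y ∈ Y, ∃ x ∈ F, ∃ c ∈ E x, f x c = y

theorem max_mem {α : Type u} [LinearOrder α] {Y : Set α} {a b : α} (ha : a ∈ Y) (hb : b ∈ Y) :
    max a b ∈ Y := by
  rcases max_choice a b with h | h <;> rw [h] <;> assumption

theorem min_mem {α : Type u} [LinearOrder α] {Y : Set α} {a b : α} (ha : a ∈ Y) (hb : b ∈ Y) :
    min a b ∈ Y := by
  rcases min_choice a b with h | h <;> rw [h] <;> assumption

variable {L : Type u} {C : Type v} {C' : Type w} [LinearOrder L] [LinearOrder C] [LinearOrder C']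

theorem up {F : Set L} {E : L → Set C} {Y : Set C'} {y0 : C'} (hF : Cof F) (hy0 : y0 ∈ Y)
    (hmin : ∀ y ∈ Y, y0 ≤ y) (hY : Cof Y)
    (H : ∀ x ∈ F, ∀ S ⊆ Y, S.Nonempty → Onto (E x) S) : ∃ f, Good F E Y f := by
  classical
  obtain ⟨c, hc, hcc⟩ := hF
  by_cases hmax : ∃ x1 ∈ F, ∀ x ∈ F, x ≤ x1
  · obtain ⟨x1, hx1, hx1'⟩ := hmax
    obtain ⟨g, hg, hgi⟩ := H x1 hx1 Y subset_rfl ⟨y0, hy0⟩
    have hgm : ∀ a ∈ E x1, g a ∈ Y := fun a ha => hgi ▸ mem_image_of_mem g ha
    refine ⟨fun x a => if x = x1 then g a else y0, ?_, ?_, ?_, ?_⟩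
    · intro x hx a ha b hb hab
      by_cases h : x = x1
      · subst h
        simp only [if_true]
        exact hg ha hb hab
      · simp only [h, if_false]
        exact le_rfl
    · intro x hx x' hx' hlt a ha b hb
      have h : x ≠ x1 := by
        rintro rfl
        exact absurd (hx1' x' hx') (not_le.2 hlt)
      simp only [h, if_false]
      by_cases h' : x' = x1
      · subst h'
        simp only [if_true]
        exact hmin _ (hgm b hb)
      · simp only [h', if_false]
        exact le_rfl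
    · intro x hx a ha
      by_cases h : x = x1
      · subst h
        simp only [if_true]
        exact hgm a ha
      · simp only [h, if_false]
        exact hy0
    · intro y hy
      rw [← hgi] at hy
      obtain ⟨a, ha, rfl⟩ := hy
      exact ⟨x1, hx1, a, ha, by simp⟩
  · push Not at hmax
    choose! nx hnx1 hnx2 using hmax
    obtain ⟨t, ht0, hts⟩ : ∃ t : ℕ → L, t 0 = c 0 ∧ ∀ n, t (n + 1) = nx (max (t n) (c n)) :=
      ⟨fun n => Nat.rec (c 0) (fun n r => nx (max r (c n))) n, rfl, fun n => rfl⟩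
    have hmx : ∀ n, t n ∈ F → max (t n) (c n) ∈ F := by
      intro n h
      rcases max_choice (t n) (c n) with h' | h' <;> rw [h']
      · exact h
      · exact hc n
    have htm : ∀ n, t n ∈ F := by
      intro n
      induction n with
      | zero => rw [ht0]; exact hc 0
      | succ n ih => rw [hts]; exact hnx1 _ (hmx n ih)
    have htl : ∀ n, max (t n) (c n) < t (n + 1) := by
      intro n
      rw [hts]
      exact hnx2 _ (hmx n (htm n))
    have hmono : StrictMono t := strictMono_nat_of_lt_succ fun n =>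
      (le_max_left _ _).trans_lt (htl n)
    have hex : ∀ x ∈ F, ∃ n, x < t n := by
      intro x hx
      obtain ⟨n, hn⟩ := hcc x hx
      exact ⟨n + 1, (hn.trans (le_max_right _ _)).trans_lt (htl n)⟩
    obtain ⟨d, hd, hdc⟩ := hY
    obtain ⟨y, hyz, hys⟩ : ∃ y : ℕ → C', y 0 = y0 ∧ ∀ n, y (n + 1) = max (y n) (d n) :=
      ⟨fun n => Nat.rec y0 (fun n r => max r (d n)) n, rfl, fun n => rfl⟩
    have hym : ∀ n, y n ∈ Y := by
      intro n
      induction n with
      | zero => rw [hyz]; exact hy0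
      | succ n ih =>
        rw [hys]
        rcases max_choice (y n) (d n) with h' | h' <;> rw [h']
        · exact ih
        · exact hd n
    have hymono : Monotone y := monotone_nat_of_le_succ fun n => by
      rw [hys]; exact le_max_left _ _
    have hyc : ∀ z ∈ Y, ∃ n, z ≤ y n := by
      intro z hz
      obtain ⟨n, hn⟩ := hdc z hz
      exact ⟨n + 1, hn.trans (by rw [hys]; exact le_max_right _ _)⟩
    have hg : ∀ n, ∃ g : C → C', MonotoneOn g (E (t n)) ∧
        g '' (E (t n)) = Y ∩ Icc (y n) (y (n + 1)) := fun n =>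
      H (t n) (htm n) _ inter_subset_left ⟨y n, hym n, le_rfl, hymono (Nat.le_succ n)⟩
    choose g hg hgi using hg
    obtain ⟨N, hN⟩ : ∃ N : L → ℕ, ∀ x ∈ F, x < t (N x) ∧ ∀ m, m < N x → t m ≤ x := by
      refine ⟨fun x => if h : ∃ n, x < t n then Nat.find h else 0, ?_⟩
      intro x hx
      have h := hex x hx
      simp only [h, dif_pos]
      exact ⟨Nat.find_spec h, fun m hm => not_lt.1 (Nat.find_min h hm)⟩
    let f : L → C → C' := fun x a =>
      if N x = 0 then y0 else if x = t (N x - 1) then g (N x - 1) a else y (N x)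
    have hf : ∀ x ∈ F, ∀ a ∈ E x, f x a ∈ Y ∧ f x a ≤ y (N x) ∧ y (N x - 1) ≤ f x a := by
      intro x hx a ha
      by_cases h0 : N x = 0
      · have hfx : f x a = y0 := by simp only [f, h0, if_true]
        rw [hfx, h0]
        exact ⟨hy0, hyz.ge, hyz.le⟩
      · by_cases h1 : x = t (N x - 1)
        · have hfx : f x a = g (N x - 1) a := by
            simp only [f]
            rw [if_neg h0, if_pos h1]
          have h2 : g (N x - 1) a ∈ Y ∩ Icc (y (N x - 1)) (y (N x - 1 + 1)) := by
            rw [← hgi]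
            exact mem_image_of_mem _ (h1 ▸ ha)
          rw [Nat.sub_add_cancel (Nat.one_le_iff_ne_zero.2 h0)] at h2
          rw [hfx]
          exact ⟨h2.1, h2.2.2, h2.2.1⟩
        · have hfx : f x a = y (N x) := by
            simp only [f]
            rw [if_neg h0, if_neg h1]
          rw [hfx]
          exact ⟨hym _, le_rfl, hymono (Nat.sub_le _ _)⟩
    refine ⟨f, ?_, ?_, fun x hx a ha => (hf x hx a ha).1, ?_⟩
    · intro x hx a ha b hb hab
      by_cases h0 : N x = 0
      · simp only [f, h0, if_true]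
        exact le_rfl
      · by_cases h1 : x = t (N x - 1)
        · simp only [f]
          rw [if_neg h0, if_pos h1, if_neg h0, if_pos h1]
          exact hg _ (h1 ▸ ha) (h1 ▸ hb) hab
        · simp only [f]
          rw [if_neg h0, if_neg h1, if_neg h0, if_neg h1]
    · intro x hx x' hx' hlt a ha b hb
      have hle : N x ≤ N x' := by
        by_contra h
        push Not at h
        exact absurd ((hN x hx).2 _ h) (not_le.2 (hlt.trans (hN x' hx').1))
      rcases hle.lt_or_eq with h | h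
      · exact ((hf x hx a ha).2.1.trans (hymono (by omega))).trans (hf x' hx' b hb).2.2
      · by_cases h0 : N x = 0
        · have h0' : N x' = 0 := h ▸ h0
          simp only [f, h0, h0', if_true]
          exact le_rfl
        · have h0' : N x' ≠ 0 := h ▸ h0
          have h1 : x' ≠ t (N x' - 1) := by
            intro h2
            have h3 := (hN x hx).2 (N x - 1) (by omega)
            rw [h] at h3
            rw [← h2] at h3
            exact absurd h3 (not_le.2 hlt)
          have hfx : f x' b = y (N x') := by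
            simp only [f]
            rw [if_neg h0', if_neg h1]
          rw [hfx, ← h]
          exact (hf x hx a ha).2.1
    · intro z hz
      have hn : ∃ n, y n ≤ z ∧ z ≤ y (n + 1) := by
        have hzz := hyc z hz
        have h1 := Nat.find_spec hzz
        rcases Nat.eq_zero_or_pos (Nat.find hzz) with h0 | h0
        · refine ⟨0, ?_, ?_⟩
          · rw [hyz]; exact hmin z hz
          · rw [h0] at h1
            exact h1.trans (hymono (Nat.zero_le _))
        · refine ⟨Nat.find hzz - 1, ?_, ?_⟩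
          · exact (not_le.1 (Nat.find_min hzz (by omega))).le
          · rw [Nat.sub_add_cancel h0]
            exact h1
      obtain ⟨n, hn1, hn2⟩ := hn
      have h1 : z ∈ g n '' (E (t n)) := by
        rw [hgi]
        exact ⟨hz, hn1, hn2⟩
      obtain ⟨a, ha, hga⟩ := h1
      have hNt : N (t n) = n + 1 := by
        have h2 := (hN (t n) (htm n)).1
        have h3 := hmono.lt_iff_lt.1 h2
        by_contra h4
        have h5 := (hN (t n) (htm n)).2 (n + 1) (by omega)
        exact absurd (hmono.le_iff_le.1 h5) (by omega)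
      refine ⟨t n, htm n, a, ha, ?_⟩
      simp only [f, hNt]
      rw [if_neg (by omega), if_pos (by simp)]
      simpa using hga

theorem down {F : Set L} {E : L → Set C} {Y : Set C'} {y0 : C'} (hF : Coi F) (hy0 : y0 ∈ Y)
    (hmax : ∀ y ∈ Y, y ≤ y0) (hY : Coi Y)
    (H : ∀ x ∈ F, ∀ S ⊆ Y, S.Nonempty → Onto (E x) S) : ∃ f, Good F E Y f := by
  obtain ⟨f, h1, h2, h3, h4⟩ := up (L := Lᵒᵈ) (C := Cᵒᵈ) (C' := C'ᵒᵈ)
    (F := OrderDual.ofDual ⁻¹' F) (E := fun x => OrderDual.ofDual ⁻¹' (E (OrderDual.ofDual x)))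
    (Y := OrderDual.ofDual ⁻¹' Y) (y0 := OrderDual.toDual y0)
    (by
      obtain ⟨c, hc, hcc⟩ := hF
      exact ⟨fun n => OrderDual.toDual (c n), hc, fun x hx => hcc (OrderDual.ofDual x) hx⟩)
    hy0 (fun y hy => hmax (OrderDual.ofDual y) hy)
    (by
      obtain ⟨c, hc, hcc⟩ := hY
      exact ⟨fun n => OrderDual.toDual (c n), hc, fun x hx => hcc (OrderDual.ofDual x) hx⟩)
    (by
      intro x hx S hS hSn
      obtain ⟨g, hg, hgi⟩ := H (OrderDual.ofDual x) hx (OrderDual.toDual ⁻¹' S)
        (fun z hz => hS hz) (by obtain ⟨z, hz⟩ := hSn; exact ⟨OrderDual.ofDual z, hz⟩)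
      refine ⟨fun a => OrderDual.toDual (g (OrderDual.ofDual a)), ?_, ?_⟩
      · intro a ha b hb hab
        exact hg hb ha hab
      · ext z
        constructor
        · rintro ⟨a, ha, rfl⟩
          have : g (OrderDual.ofDual a) ∈ OrderDual.toDual ⁻¹' S := by
            rw [← hgi]; exact mem_image_of_mem g ha
          exact this
        · intro hz
          have : OrderDual.ofDual z ∈ g '' (E (OrderDual.ofDual x)) := by
            rw [hgi]; exact hz
          obtain ⟨a, ha, haz⟩ := this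
          exact ⟨OrderDual.toDual a, ha, congrArg OrderDual.toDual haz⟩)
  refine ⟨fun x a => OrderDual.ofDual (f (OrderDual.toDual x) (OrderDual.toDual a)), ?_, ?_, ?_, ?_⟩
  · intro x hx a ha b hb hab
    exact h1 (OrderDual.toDual x) hx hb ha hab
  · intro x hx x' hx' hlt a ha b hb
    exact h2 (OrderDual.toDual x') hx' (OrderDual.toDual x) hx hlt b hb a ha
  · intro x hx a ha
    exact h3 (OrderDual.toDual x) hx (OrderDual.toDual a) ha
  · intro y hy
    obtain ⟨x, hx, a, ha, hxa⟩ := h4 (OrderDual.toDual y) hy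
    exact ⟨OrderDual.ofDual x, hx, OrderDual.ofDual a, ha, congrArg OrderDual.ofDual hxa⟩

theorem fib {F : Set L} {E : L → Set C} {Y : Set C'} (hF : Cof F) (hF' : Coi F)
    (hY : Cof Y) (hY' : Coi Y)
    (H : ∀ x ∈ F, ∀ S ⊆ Y, S.Nonempty → Onto (E x) S) : ∃ f, Good F E Y f := by
  classical
  obtain ⟨c, hc, hcc⟩ := hF
  obtain ⟨c', hc', hcc'⟩ := hF'
  obtain ⟨d, hd, hdd⟩ := hY
  obtain ⟨d', hd', hdd'⟩ := hY'
  set y0 := d 0 with hy0
  by_cases hs : ∃ p ∈ F, ∃ q ∈ F, p < q
  · obtain ⟨p, hp, q, hq, hpq⟩ := hs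
    obtain ⟨f1, a1, a2, a3, a4⟩ := down (F := F ∩ Iic p) (E := E) (Y := Y ∩ Iic y0) (y0 := y0)
      ⟨fun n => min (c' n) p, fun n => ⟨min_mem (hc' n) hp, min_le_right _ _⟩, fun x hx => by
          obtain ⟨n, hn⟩ := hcc' x hx.1
          exact ⟨n, (min_le_left _ _).trans hn⟩⟩
      ⟨hd 0, le_rfl⟩ (fun y hy => hy.2)
      ⟨fun n => min (d' n) y0, fun n => ⟨min_mem (hd' n) (hd 0), min_le_right _ _⟩, fun x hx => by
          obtain ⟨n, hn⟩ := hdd' x hx.1
          exact ⟨n, (min_le_left _ _).trans hn⟩⟩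
      (fun x hx S hS hSn => H x hx.1 S (hS.trans inter_subset_left) hSn)
    obtain ⟨f2, b1, b2, b3, b4⟩ := up (F := F ∩ Ici q) (E := E) (Y := Y ∩ Ici y0) (y0 := y0)
      ⟨fun n => max (c n) q, fun n => ⟨max_mem (hc n) hq, le_max_right _ _⟩, fun x hx => by
          obtain ⟨n, hn⟩ := hcc x hx.1
          exact ⟨n, hn.trans (le_max_left _ _)⟩⟩
      ⟨hd 0, le_rfl⟩ (fun y hy => hy.2)
      ⟨fun n => max (d n) y0, fun n => ⟨max_mem (hd n) (hd 0), le_max_right _ _⟩, fun x hx => by
          obtain ⟨n, hn⟩ := hdd x hx.1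
          exact ⟨n, hn.trans (le_max_left _ _)⟩⟩
      (fun x hx S hS hSn => H x hx.1 S (hS.trans inter_subset_left) hSn)
    let f : L → C → C' := fun x a => if x ≤ p then f1 x a else if q ≤ x then f2 x a else y0
    have e1 : ∀ x, x ≤ p → ∀ a, f x a = f1 x a := fun x hx a => by simp only [f, hx, if_true]
    have e2 : ∀ x, q ≤ x → ∀ a, f x a = f2 x a := fun x hx a => by
      have : ¬ x ≤ p := not_le.2 (hpq.trans_le hx)
      simp only [f, this, hx, if_true, if_false]
    have e3 : ∀ x, p < x → x < q → ∀ a, f x a = y0 := fun x hx hx' a => by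
      simp only [f, not_le.2 hx, not_le.2 hx', if_false]
    have k1 : ∀ x ∈ F, x ≤ p → ∀ a ∈ E x, f x a ∈ Y ∧ f x a ≤ y0 := fun x hx hxp a ha => by
      rw [e1 x hxp]; exact a3 x ⟨hx, hxp⟩ a ha
    have k2 : ∀ x ∈ F, q ≤ x → ∀ a ∈ E x, f x a ∈ Y ∧ y0 ≤ f x a := fun x hx hxp a ha => by
      rw [e2 x hxp]; exact b3 x ⟨hx, hxp⟩ a ha
    refine ⟨f, ?_, ?_, ?_, ?_⟩
    · intro x hx a ha b hb hab
      rcases le_or_gt x p with h | h
      · rw [e1 x h, e1 x h]; exact a1 x ⟨hx, h⟩ ha hb hab
      · rcases le_or_gt q x with h' | h'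
        · rw [e2 x h', e2 x h']; exact b1 x ⟨hx, h'⟩ ha hb hab
        · rw [e3 x h h', e3 x h h']
    · intro x hx x' hx' hlt a ha b hb
      rcases le_or_gt x' p with h | h
      · have h2 : x ≤ p := hlt.le.trans h
        rw [e1 x h2, e1 x' h]
        exact a2 x ⟨hx, h2⟩ x' ⟨hx', h⟩ hlt a ha b hb
      · rcases le_or_gt q x with h' | h'
        · have h2 : q ≤ x' := h'.trans hlt.le
          rw [e2 x h', e2 x' h2]
          exact b2 x ⟨hx, h'⟩ x' ⟨hx', h2⟩ hlt a ha b hb
        · have l1 : f x a ≤ y0 := by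
            rcases le_or_gt x p with h2 | h2
            · exact (k1 x hx h2 a ha).2
            · rw [e3 x h2 h']
          have l2 : y0 ≤ f x' b := by
            rcases le_or_gt q x' with h2 | h2
            · exact (k2 x' hx' h2 b hb).2
            · rw [e3 x' h h2]
          exact l1.trans l2
    · intro x hx a ha
      rcases le_or_gt x p with h | h
      · exact (k1 x hx h a ha).1
      · rcases le_or_gt q x with h' | h'
        · exact (k2 x hx h' a ha).1
        · rw [e3 x h h']; exact hd 0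
    · intro y hy
      rcases le_total y y0 with h | h
      · obtain ⟨x, hx, a, ha, hxa⟩ := a4 y ⟨hy, h⟩
        exact ⟨x, hx.1, a, ha, by rw [e1 x hx.2]; exact hxa⟩
      · obtain ⟨x, hx, a, ha, hxa⟩ := b4 y ⟨hy, h⟩
        exact ⟨x, hx.1, a, ha, by rw [e2 x hx.2]; exact hxa⟩
  · push Not at hs
    obtain ⟨g, hg, hgi⟩ := H (c 0) (hc 0) Y subset_rfl ⟨_, hd 0⟩
    have hx0 : ∀ x ∈ F, x = c 0 := fun x hx => le_antisymm (hs _ (hc 0) _ hx) (hs _ hx _ (hc 0))
    refine ⟨fun _ => g, ?_, ?_, ?_, ?_⟩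
    · intro x hx
      rw [hx0 x hx]
      exact hg
    · intro x hx x' hx' hlt
      rw [hx0 x hx, hx0 x' hx'] at hlt
      exact absurd hlt (lt_irrefl _)
    · intro x hx a ha
      rw [← hgi]
      rw [hx0 x hx] at ha
      exact mem_image_of_mem g ha
    · intro y hy
      rw [← hgi] at hy
      obtain ⟨a, ha, hay⟩ := hy
      exact ⟨c 0, hc 0, a, ha, hay⟩

end Pool.Agent.Y874.SS
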