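import Pool.Agent.Y874.SS.Lex

/-!
# Sums of dense mixtures of finite blocks, and their isomorphism types
-/

set_option autoImplicit false
set_option linter.unusedSectionVars false

namespace Pool.Agent.Y874.SS

open Set

universe u v w

/-- A colouring of the rationals all of whose colour classes are dense. -/
noncomputable def lam (q : ℚ) : ℕ := (-(padicValRat 2 q)).toNat

theorem lam_dense (n : ℕ) {a b : ℚ} (h : a < b) : ∃ q, a < q ∧ q < b ∧ lam q = n := by
  obtain ⟨m, hm⟩ := exists_nat_gt (1 / (b - a))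
  have hba : 0 < b - a := sub_pos.2 h
  have hm1 : 1 < (m : ℚ) * (b - a) := by
    rwa [div_lt_iff₀ hba] at hm
  set D : ℕ := 2 * m + 1 with hD
  set N : ℕ := 2 ^ n * D with hN
  have hDpos : 0 < D := by omega
  have hNpos : 0 < N := by positivity
  have hNq : (0 : ℚ) < (N : ℚ) := by exact_mod_cast hNpos
  have hND : (D : ℚ) ≤ (N : ℚ) := by
    have : D ≤ N := by
      rw [hN]
      exact Nat.le_mul_of_pos_left _ (by positivity)
    exact_mod_cast this
  have hbig : 2 < (b - a) * (N : ℚ) := by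
    have h1 : 2 < (b - a) * (D : ℚ) := by
      rw [hD]
      push_cast
      nlinarith
    exact h1.trans_le (mul_le_mul_of_nonneg_left hND hba.le)
  obtain ⟨j, hj1, hj2, hj3⟩ : ∃ j : ℤ, a * N < j ∧ (j : ℚ) < b * N ∧ j % 2 = 1 := by
    have h1 := Int.lt_floor_add_one (a * (N : ℚ))
    have h2 := Int.floor_le (a * (N : ℚ))
    rcases Int.emod_two_eq_zero_or_one (⌊a * (N : ℚ)⌋ + 1) with h3 | h3
    · refine ⟨⌊a * (N : ℚ)⌋ + 1 + 1, ?_, ?_, by omega⟩
      · push_cast; linarith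
      · push_cast; nlinarith
    · refine ⟨⌊a * (N : ℚ)⌋ + 1, ?_, ?_, h3⟩
      · push_cast; linarith
      · push_cast; nlinarith
  refine ⟨j / N, by rwa [lt_div_iff₀ hNq], by rwa [div_lt_iff₀ hNq], ?_⟩
  have hj0 : (j : ℚ) ≠ 0 := by
    have : j ≠ 0 := by rintro rfl; simp at hj3
    exact_mod_cast this
  have e1 : padicValRat 2 (j : ℚ) = 0 := by
    rw [padicValRat.of_int]
    have : ¬ (2 : ℕ) ∣ j.natAbs := by
      intro hd
      have : (2 : ℤ) ∣ j := by
        have := Int.natCast_dvd_natCast.2 hd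
        rwa [Int.dvd_natAbs] at this
      omega
    rw [padicValInt, padicValNat.eq_zero_of_not_dvd this]
    rfl
  have e2 : padicValRat 2 (N : ℚ) = n := by
    rw [padicValRat.of_nat, hN]
    have hodd : ¬ 2 ∣ D := by omega
    rw [padicValNat.mul (by positivity) (by omega), padicValNat.prime_pow,
      padicValNat.eq_zero_of_not_dvd hodd]
    simp
  rw [lam, padicValRat.div hj0 hNq.ne', e1, e2]
  simp

open Classical in
/-- The size of the block at `q`: it is `n + 2` if `q` has the colour `n + 1` and `n ∈ A`, and `1`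
otherwise. -/
noncomputable def sz (A : Set ℕ) (q : ℚ) : ℕ := if 1 ≤ lam q ∧ lam q - 1 ∈ A then lam q + 1 else 1

theorem sz_pos (A : Set ℕ) (q : ℚ) : 0 < sz A q := by
  unfold sz
  split_ifs <;> omega

theorem sz_of_mem {A : Set ℕ} {q : ℚ} {n : ℕ} (hn : n ∈ A) (hq : lam q = n + 1) :
    sz A q = n + 2 := by
  unfold sz
  rw [hq, if_pos ⟨by omega, by simpa using hn⟩]

theorem mem_of_sz {A : Set ℕ} {q : ℚ} {n : ℕ} (h : sz A q = n + 2) : n ∈ A := by
  unfold sz at h
  split_ifs at h with h1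
  · have : lam q - 1 = n := by omega
    rw [← this]
    exact h1.2
  · omega

/-- The dense mixture of blocks: the points `(q, i)` with `i < sz A q`. -/
def EA (A : Set ℕ) : Set (ℚ ×ₗ ℕ) := {c | (ofLex c).2 < sz A (ofLex c).1}

theorem EA_onto (A : Set ℕ) (S : Set (ℚ ×ₗ ℕ)) (hS : S.Nonempty) : Onto (EA A) S := by
  have : Countable (ℚ ×ₗ ℕ) := inferInstanceAs (Countable (ℚ × ℕ))
  have : Nonempty S := hS.to_subtype
  obtain ⟨f, hf, hfs⟩ := rat_onto S
  refine ⟨fun c => (f (ofLex c).1).1, ?_, ?_⟩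
  · intro c _ c' _ hcc
    apply hf
    rcases Prod.Lex.le_iff.1 hcc with h | ⟨h, _⟩
    · exact h.le
    · exact h.le
  · ext z
    constructor
    · rintro ⟨c, _, rfl⟩
      exact (f (ofLex c).1).2
    · intro hz
      obtain ⟨q, hq⟩ := hfs ⟨z, hz⟩
      refine ⟨toLex (q, 0), ?_, ?_⟩
      · exact sz_pos A q
      · simp only [ofLex_toLex, hq]

variable {L : Type u} [LinearOrder L]

/-- The sum over `L` of the mixtures of blocks given by the sets `A x`. -/
abbrev MA (A : L → Set ℕ) : Set (L ×ₗ (ℚ ×ₗ ℕ)) := Sm fun x => EA (A x)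

theorem MA_onto (hL : StronglySurjective L) (A : L → Set ℕ) (K : Set (L ×ₗ (ℚ ×ₗ ℕ)))
    (hK : K.Nonempty) : Onto (MA A) K := by
  have : Countable (ℚ ×ₗ ℕ) := inferInstanceAs (Countable (ℚ × ℕ))
  exact lexSurj hL _ K hK (fun y hy => short_of_countable _ _ hy)
    fun x _ S _ hSn => EA_onto (A x) S hSn

theorem MA_strong (hL : StronglySurjective L) (A : L → Set ℕ) :
    StronglySurjective (MA A) :=
  strong_of_onto fun K' _ hK' => MA_onto hL A K' hK'

/-! ### Coordinates -/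

section Coord

variable {A : L → Set ℕ}

/-- First coordinate. -/
def X (w : MA A) : L := (ofLex w.1).1

/-- Second coordinate. -/
def Q (w : MA A) : ℚ := (ofLex (ofLex w.1).2).1

/-- Third coordinate. -/
def I (w : MA A) : ℕ := (ofLex (ofLex w.1).2).2

theorem I_lt (w : MA A) : I w < sz (A (X w)) (Q w) := w.2

/-- The point with given coordinates. -/
def mk (A : L → Set ℕ) (x : L) (q : ℚ) (i : ℕ) (h : i < sz (A x) q) : MA A :=
  ⟨toLex (x, toLex (q, i)), h⟩

theorem X_mk (x : L) (q : ℚ) (i : ℕ) (h : i < sz (A x) q) : X (mk A x q i h) = x := rfl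
theorem Q_mk (x : L) (q : ℚ) (i : ℕ) (h : i < sz (A x) q) : Q (mk A x q i h) = q := rfl
theorem I_mk (x : L) (q : ℚ) (i : ℕ) (h : i < sz (A x) q) : I (mk A x q i h) = i := rfl

theorem lt_iff' (w w' : MA A) : w < w' ↔ X w < X w' ∨ (X w = X w' ∧
    (Q w < Q w' ∨ (Q w = Q w' ∧ I w < I w'))) := by
  have h1 : w < w' ↔ w.1 < w'.1 := Iff.rfl
  rw [h1, Prod.Lex.lt_iff, Prod.Lex.lt_iff]
  rfl

theorem ext' {w w' : MA A} (h1 : X w = X w') (h2 : Q w = Q w') (h3 : I w = I w') : w = w' := by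
  apply Subtype.ext
  apply ofLex.injective
  apply Prod.ext h1
  apply ofLex.injective
  exact Prod.ext h2 h3

theorem mk_eta (w : MA A) : mk A (X w) (Q w) (I w) (I_lt w) = w := ext' rfl rfl rfl

theorem cov {w w' : MA A} (h : w ⋖ w') : X w = X w' ∧ Q w = Q w' ∧ I w' = I w + 1 := by
  rcases (lt_iff' w w').1 h.1 with h1 | ⟨h1, h2 | ⟨h2, h3⟩⟩
  · exfalso
    have hz := h.2 (c := mk A (X w) (Q w + 1) 0 (sz_pos _ _))
    apply hz
    · rw [lt_iff', X_mk, Q_mk, I_mk]
      exact Or.inr ⟨rfl, Or.inl (by linarith)⟩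
    · rw [lt_iff', X_mk]
      exact Or.inl h1
  · exfalso
    obtain ⟨q, hq1, hq2⟩ := exists_between h2
    have hz := h.2 (c := mk A (X w) q 0 (sz_pos _ _))
    apply hz
    · rw [lt_iff', X_mk, Q_mk, I_mk]
      exact Or.inr ⟨rfl, Or.inl hq1⟩
    · rw [lt_iff', X_mk, Q_mk, I_mk]
      exact Or.inr ⟨h1, Or.inl hq2⟩
  · refine ⟨h1, h2, ?_⟩
    by_contra h4
    have h5 : I w + 1 < I w' := by omega
    have h6 : I w + 1 < sz (A (X w)) (Q w) := by
      have := I_lt w'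
      rw [← h1, ← h2] at this
      omega
    have hz := h.2 (c := mk A (X w) (Q w) (I w + 1) h6)
    apply hz
    · rw [lt_iff', X_mk, Q_mk, I_mk]
      exact Or.inr ⟨rfl, Or.inr ⟨rfl, by omega⟩⟩
    · rw [lt_iff', X_mk, Q_mk, I_mk]
      exact Or.inr ⟨h1, Or.inr ⟨h2, h5⟩⟩

theorem cov' (x : L) (q : ℚ) (i : ℕ) (h : i < sz (A x) q) (h' : i + 1 < sz (A x) q) :
    mk A x q i h ⋖ mk A x q (i + 1) h' := by
  refine ⟨?_, ?_⟩
  · rw [lt_iff']
    simp only [X_mk, Q_mk, I_mk]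
    exact Or.inr ⟨trivial, Or.inr ⟨trivial, by omega⟩⟩
  · intro z h1 h2
    rw [lt_iff'] at h1 h2
    simp only [X_mk, Q_mk, I_mk] at h1 h2
    rcases h1 with h1 | ⟨h1, h1'⟩
    · rcases h2 with h2 | ⟨h2, _⟩
      · exact absurd h1 (lt_asymm h2)
      · exact absurd h2.symm h1.ne
    · rcases h2 with h2 | ⟨h2, h2'⟩
      · exact absurd h1.symm h2.ne
      · rcases h1' with h3 | ⟨h3, h3'⟩
        · rcases h2' with h4 | ⟨h4, _⟩
          · exact absurd h3 (lt_asymm h4)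
          · exact absurd h4.symm h3.ne
        · rcases h2' with h4 | ⟨h4, h4'⟩
          · exact absurd h3.symm h4.ne
          · omega

end Coord

/-! ### Blocks -/

/-- There is a maximal block of `n + 2` consecutive points strictly between `a` and `p`. -/
def Blk {M : Type v} [LinearOrder M] (n : ℕ) (a p : M) : Prop :=
  ∃ u : ℕ → M, (∀ i ≤ n, u i ⋖ u (i + 1)) ∧ (∀ z, ¬ z ⋖ u 0) ∧ (∀ z, ¬ u (n + 1) ⋖ z) ∧
    ∀ i ≤ n + 1, a < u i ∧ u i < p

/-- Blocks of size `n + 2` accumulate at `p` from below. -/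
def Acc {M : Type v} [LinearOrder M] (n : ℕ) (p : M) : Prop := ∀ a < p, Blk n a p

theorem Acc.map {M : Type v} {M' : Type w} [LinearOrder M] [LinearOrder M'] (φ : M ≃o M') {n : ℕ}
    {p : M} (h : Acc n p) : Acc n (φ p) := by
  intro a ha
  obtain ⟨u, h1, h2, h3, h4⟩ := h (φ.symm a) (by rw [← φ.lt_iff_lt]; simpa using ha)
  refine ⟨fun i => φ (u i), ?_, ?_, ?_, ?_⟩
  · intro i hi
    exact (apply_covBy_apply_iff φ).2 (h1 i hi)
  · intro z hz
    apply h2 (φ.symm z)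
    rw [← apply_covBy_apply_iff φ]
    simpa using hz
  · intro z hz
    apply h3 (φ.symm z)
    rw [← apply_covBy_apply_iff φ]
    simpa using hz
  · intro i hi
    refine ⟨?_, φ.lt_iff_lt.2 (h4 i hi).2⟩
    have := φ.lt_iff_lt.2 (h4 i hi).1
    simpa using this

variable {A : L → Set ℕ}

theorem acc_of_mem {x : L} {n : ℕ} (hn : n ∈ A x) (q : ℚ) :
    Acc n (mk A x q 0 (sz_pos _ _)) := by
  intro a ha
  rw [lt_iff'] at ha
  simp only [X_mk, Q_mk, I_mk] at ha
  obtain ⟨r, hr1, hr2, hr3⟩ : ∃ r : ℚ, (X a < x ∨ (X a = x ∧ Q a < r)) ∧ r < q ∧ lam r = n + 1 := by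
    rcases ha with ha | ⟨ha, ha' | ⟨_, ha'⟩⟩
    · obtain ⟨r, hr1, hr2, hr3⟩ := lam_dense (n + 1) (show q - 1 < q by linarith)
      exact ⟨r, Or.inl ha, hr2, hr3⟩
    · obtain ⟨r, hr1, hr2, hr3⟩ := lam_dense (n + 1) ha'
      exact ⟨r, Or.inr ⟨ha, hr1⟩, hr2, hr3⟩
    · exact absurd ha' (Nat.not_lt_zero _)
  have hsz := sz_of_mem hn hr3
  refine ⟨fun i => mk A x r (min i (n + 1)) (by rw [hsz]; omega), ?_, ?_, ?_, ?_⟩
  · intro i hi
    have h := cov' (A := A) x r i (by rw [hsz]; omega) (by rw [hsz]; omega)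
    have e1 : mk A x r (min i (n + 1)) (by rw [hsz]; omega) = mk A x r i (by rw [hsz]; omega) :=
      ext' rfl rfl (by rw [I_mk, I_mk]; omega)
    have e2 : mk A x r (min (i + 1) (n + 1)) (by rw [hsz]; omega) =
        mk A x r (i + 1) (by rw [hsz]; omega) :=
      ext' rfl rfl (by rw [I_mk, I_mk]; omega)
    simp only
    rw [e1, e2]
    exact h
  · intro z hz
    have := (cov hz).2.2
    rw [I_mk] at this
    simp at this
  · intro z hz
    obtain ⟨h1, h2, h3⟩ := cov hz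
    have h4 := I_lt z
    rw [← h1, ← h2, X_mk, Q_mk, hsz, h3, I_mk] at h4
    simp at h4
  · intro i _
    constructor
    · rw [lt_iff']
      simp only [X_mk, Q_mk, I_mk]
      rcases hr1 with h | ⟨h, h'⟩
      · exact Or.inl h
      · exact Or.inr ⟨h, Or.inl h'⟩
    · rw [lt_iff']
      simp only [X_mk, Q_mk, I_mk]
      exact Or.inr ⟨trivial, Or.inl hr2⟩

theorem mem_of_acc {n : ℕ} {w : MA A} (h : Acc n w) : I w = 0 ∧ n ∈ A (X w) := by
  have hI : I w = 0 := by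
    by_contra h0
    have h1 : I w - 1 < sz (A (X w)) (Q w) := lt_of_le_of_lt (Nat.sub_le _ _) (I_lt w)
    have h2 : I w - 1 + 1 < sz (A (X w)) (Q w) := by
      have := I_lt w
      omega
    have h3 := cov' (A := A) (X w) (Q w) (I w - 1) h1 h2
    have e : mk A (X w) (Q w) (I w - 1 + 1) h2 = w := ext' rfl rfl (by rw [I_mk]; omega)
    rw [e] at h3
    obtain ⟨u, _, _, _, h4⟩ := h _ h3.1
    exact h3.2 (h4 0 (by omega)).1 (h4 0 (by omega)).2
  refine ⟨hI, ?_⟩
  have ha : mk A (X w) (Q w - 1) 0 (sz_pos _ _) < w := by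
    rw [lt_iff']
    simp only [X_mk, Q_mk, I_mk]
    exact Or.inr ⟨trivial, Or.inl (by linarith)⟩
  obtain ⟨u, h1, h2, h3, h4⟩ := h _ ha
  have hX : X (u 0) = X w := by
    obtain ⟨k1, k2⟩ := h4 0 (by omega)
    rw [lt_iff'] at k1 k2
    simp only [X_mk] at k1
    rcases k1 with k1 | ⟨k1, _⟩
    · rcases k2 with k2 | ⟨k2, _⟩
      · exact absurd k1 (lt_asymm k2)
      · exact k2
    · exact k1.symm
  have hu : ∀ i, i ≤ n + 1 → X (u i) = X (u 0) ∧ Q (u i) = Q (u 0) ∧ I (u i) = I (u 0) + i := by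
    intro i
    induction i with
    | zero => intro _; exact ⟨rfl, rfl, rfl⟩
    | succ i ih =>
      intro hi
      obtain ⟨a1, a2, a3⟩ := ih (by omega)
      obtain ⟨b1, b2, b3⟩ := cov (h1 i (by omega))
      exact ⟨by rw [← b1, a1], by rw [← b2, a2], by rw [b3, a3]; ring⟩
  have hI0 : I (u 0) = 0 := by
    by_contra h0
    have k1 : I (u 0) - 1 < sz (A (X (u 0))) (Q (u 0)) :=
      lt_of_le_of_lt (Nat.sub_le _ _) (I_lt (u 0))
    have k2 : I (u 0) - 1 + 1 < sz (A (X (u 0))) (Q (u 0)) := by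
      have := I_lt (u 0)
      omega
    have k3 := cov' (A := A) (X (u 0)) (Q (u 0)) (I (u 0) - 1) k1 k2
    have e : mk A (X (u 0)) (Q (u 0)) (I (u 0) - 1 + 1) k2 = u 0 :=
      ext' rfl rfl (by rw [I_mk]; omega)
    rw [e] at k3
    exact h2 _ k3
  obtain ⟨a1, a2, a3⟩ := hu (n + 1) le_rfl
  rw [hI0, zero_add] at a3
  have hlt := I_lt (u (n + 1))
  rw [a3] at hlt
  have hsz : sz (A (X (u (n + 1)))) (Q (u (n + 1))) = n + 2 := by
    by_contra hne
    have k2 : n + 1 + 1 < sz (A (X (u (n + 1)))) (Q (u (n + 1))) := by omega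
    have k3 := cov' (A := A) (X (u (n + 1))) (Q (u (n + 1))) (n + 1) hlt k2
    have e : mk A (X (u (n + 1))) (Q (u (n + 1))) (n + 1) hlt = u (n + 1) :=
      ext' rfl rfl (by rw [I_mk, a3])
    rw [e] at k3
    exact h3 _ k3
  have := mem_of_sz hsz
  rwa [a1, hX] at this

theorem exists_eq {A B : L → Set ℕ} (φ : MA A ≃o MA B) {x : L} (hx : 0 ∈ A x) :
    ∃ x', A x = B x' := by
  have h0 := mem_of_acc ((acc_of_mem hx 0).map φ)
  refine ⟨X (φ (mk A x 0 0 (sz_pos _ _))), ?_⟩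
  ext k
  constructor
  · intro hk
    exact (mem_of_acc ((acc_of_mem hk 0).map φ)).2
  · intro hk
    have h1 := acc_of_mem (A := B) hk (Q (φ (mk A x 0 0 (sz_pos _ _))))
    have e : mk B (X (φ (mk A x 0 0 (sz_pos _ _)))) (Q (φ (mk A x 0 0 (sz_pos _ _)))) 0
        (sz_pos _ _) = φ (mk A x 0 0 (sz_pos _ _)) := ext' rfl rfl (by rw [I_mk, h0.1])
    rw [e] at h1
    have h2 := h1.map φ.symm
    rw [OrderIso.symm_apply_apply] at h2
    exact (mem_of_acc h2).2

end Pool.Agent.Y874.SS
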